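import Pool.Agent.V8H55.CP.Fin

/-!
# The extreme points of the minimisers of the lattice packing density are contact points

`dL`, `mn`, `Body`, `famL`, `IsPack`, `den` are the lattice packing density, the minimum over all
convex bodies, the property of being a convex body, the family of the lattice translates, the
packing property and the density of a family, see `Pool.Agent.TH219.DL.Defs`; `lat b` is the
lattice generated by `b`. In `Pool.Agent.V8H55.CP`:

* `LocMin K`: the bodies contained in `K` and close to `K` have at least the density of `K`;
* `Densest K b`: the translates of `K` by the lattice generated by `b` form a packing of density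
  `δ_L(K)`;
* `DL K`: the set of the lattices of the densest lattice packings of `K`;
* `Expo K`: the exposed points of `K`.

Proof: cut off from `K` a small cap at an exposed point `p`. The density does not decrease, the
volume does, thus there is a packing lattice of the cut body with a determinant smaller than those
of all packing lattices of `K`; it has a vector `u` for which `K` and `K + u` overlap, and all the
overlap is in the caps at `p` and `p + u`. By reduction theory the lattices and the vectors `u`
have a convergent subsequence, its limit is a densest packing lattice of `K`. In the limit `K`
touches one of its neighbours at `p`, and the contact set is contained in a line since otherwise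
the overlap would contain points that are not in the caps.
-/

namespace Pool.Agent.Results.MP_3d065d_co.ContactPoints

open Pool.Agent.H349R2.Tet (lat)
open Pool.Agent.TH219.DL (Body dL mn)
open Pool.Agent.V8H55.CP

/-- Let `K` be a minimiser of `δ_L`, or a body such that no body inside `K` and close to `K` has
smaller `δ_L`. At every exposed point `K` touches, in some densest lattice packing, one of its
neighbours, and the whole contact set is contained in a line. Every extreme point is a contact
point of a densest lattice packing. If there are only countably many densest packing lattices, then
there are only countably many exposed points; if there are only `m`, then `K` is a polytope with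
at most `52 m` vertices. -/
theorem result :
    ∀ K : Set (Fin 3 → ℝ), Body K → (dL K = mn dL ∨ LocMin K) →
      (∀ p ∈ Expo K, ∃ (b : Fin 3 → (Fin 3 → ℝ)) (u : Fin 3 → ℝ), Densest K b ∧ u ∈ lat b ∧
        u ≠ 0 ∧ p - u ∈ K ∧
        ∃ a d : Fin 3 → ℝ, ∀ x ∈ K, x - u ∈ K → ∃ t : ℝ, x = a + t • d) ∧
      (∀ p ∈ K.extremePoints ℝ, ∃ (b : Fin 3 → (Fin 3 → ℝ)) (u : Fin 3 → ℝ), Densest K b ∧
        u ∈ lat b ∧ u ≠ 0 ∧ p - u ∈ K) ∧
      ((DL K).Countable → (Expo K).Countable) ∧
      ((DL K).Finite → ∃ S : Set (Fin 3 → ℝ), S.Finite ∧ S.ncard ≤ 52 * (DL K).ncard ∧
        K = convexHull ℝ S) := by
  intro K hK h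
  have hmin : LocMin K := by
    rcases h with h | h
    · exact locMin_of_min h
    · exact h
  refine ⟨fun p hp => expo_contact hK hmin hp, fun p hp => (extreme_contact hK hmin hp).2,
    expo_countable hK hmin, fun hf => ?_⟩
  obtain ⟨h1, h2⟩ := expo_card hK hmin hf
  exact ⟨Expo K, h1, h2, hull_expo hK h1⟩

end Pool.Agent.Results.MP_3d065d_co.ContactPoints
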