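import Pool.Agent.V8H55.CS.FinS

/-!
# The extreme points of the minimisers of the double lattice packing density are contact points

`dLs`, `mn`, `Body`, `famLs`, `IsPack`, `den` are the density `δ_{L*}`, the minimum over all
convex bodies, the property of being a convex body, the family of the bodies `K + u` and
`v - K + u` with `u` in a lattice, the packing property and the density of a family, see
`Pool.Agent.TH219.DL.Defs`; `lat b` is the lattice generated by `b`, and `Expo K` is the set of the
exposed points of `K`. In `Pool.Agent.V8H55.CS`:

* `LocMinS K`: the bodies contained in `K` and close to `K` have at least the density of `K`;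
* `DensestS K v b`: the bodies `K + u` and `v - K + u`, `u` in the lattice generated by `b`, form a
  packing of density `δ_{L*}(K)`;
* `DLS K`: the set of the densest double lattice packings of `K`, given by the lattice and the
  set of the translation vectors of the reflected copies.

Proof: cut off from `K` a small cap at an exposed point `p`. The density does not decrease, the
volume does, thus the cut body has a double lattice packing whose lattice has a determinant smaller
than possible for `K`; two neighbours overlap if the caps are added. By reduction theory these
packings have a convergent subsequence, its limit is a densest double lattice packing of `K`. In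
the limit `K` touches a neighbour at `p`, and the contact set is contained in a line since
otherwise the overlap would contain points that are not in the caps.
-/

namespace Pool.Agent.Results.MP_3d065d_co.DoubleLatticeContacts

open Pool.Agent.H349R2.Tet (lat)
open Pool.Agent.TH219.DL (Body dLs mn)
open Pool.Agent.V8H55.CP (Expo)
open Pool.Agent.V8H55.CS

/-- Let `K` be a minimiser of `δ_{L*}`, or a body such that no body inside `K` and close to `K` has
smaller `δ_{L*}`. At every exposed point `K` touches, in some densest double lattice packing, one
of its neighbours `K + u` or `v - K + u`, and the whole contact set is contained in a line. Every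
extreme point is a contact point of a densest double lattice packing. If there are only countably
many densest double lattice packings, then there are only countably many exposed points; if there
are only `m`, then `K` is a polytope with at most `106 m` vertices. -/
theorem result :
    ∀ K : Set (Fin 3 → ℝ), Body K → (dLs K = mn dLs ∨ LocMinS K) →
      (∀ p ∈ Expo K, ∃ (v : Fin 3 → ℝ) (b : Fin 3 → (Fin 3 → ℝ)) (u : Fin 3 → ℝ),
        DensestS K v b ∧ u ∈ lat b ∧
        ((u ≠ 0 ∧ p - u ∈ K ∧
            ∃ a d : Fin 3 → ℝ, ∀ x ∈ K, x - u ∈ K → ∃ t : ℝ, x = a + t • d) ∨
          (v + u - p ∈ K ∧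
            ∃ a d : Fin 3 → ℝ, ∀ x ∈ K, v + u - x ∈ K → ∃ t : ℝ, x = a + t • d))) ∧
      (∀ p ∈ K.extremePoints ℝ, ∃ (v : Fin 3 → ℝ) (b : Fin 3 → (Fin 3 → ℝ)) (u : Fin 3 → ℝ),
        DensestS K v b ∧ u ∈ lat b ∧ ((u ≠ 0 ∧ p - u ∈ K) ∨ v + u - p ∈ K)) ∧
      ((DLS K).Countable → (Expo K).Countable) ∧
      ((DLS K).Finite → ∃ S : Set (Fin 3 → ℝ), S.Finite ∧ S.ncard ≤ 106 * (DLS K).ncard ∧
        K = convexHull ℝ S) := by
  intro K hK h
  have hmin : LocMinS K := by
    rcases h with h | h
    · exact locMinS_of_min h
    · exact h
  refine ⟨fun p hp => expo_contactS hK hmin hp, fun p hp => (extreme_contactS hK hmin hp).2,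
    expo_countableS hK hmin, fun hf => ?_⟩
  obtain ⟨h1, h2⟩ := expo_cardS hK hmin hf
  exact ⟨Expo K, h1, h2, Pool.Agent.V8H55.CP.hull_expo hK h1⟩

end Pool.Agent.Results.MP_3d065d_co.DoubleLatticeContacts
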