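import Pool.Agent.V8H55.MD.Round

/-!
# No smooth convex body minimises the translative or the lattice packing density

`dT`, `dL`, `mn`, `Body` are the densities `δ_T`, `δ_L`, the minimum over all convex bodies and the
property of being a convex body, see `Pool.Agent.TH219.DL.Defs`; `Smooth`, `CSym`, `DLe`,
`RoundPair` and `ip` are defined in `Pool.Agent.V8H55.MD`:

* `ip` is the inner product;
* `Smooth K`: at every point of `K` any two outer normal vectors are positive multiples of each
  other (one supporting plane at every boundary point);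
* `CSym K`: `K` has a centre of symmetry;
* `DLe K K'`: `K - K ⊆ K' - K'`;
* `RoundPair K`: there is a pair of opposite directions such that for all unit vectors `u` near one
  of them a ball of fixed radius inside `K` touches the boundary of `K` at a point with outer
  normal `u`.

Proof: the packing densities of `K` depend only on the difference body `D = K - K` and the volume,
so that it suffices to find smaller bodies whose difference body contains `D`.
Smooth bodies: for `C = D / 2` the inner parallel bodies `A(t) = {a | a + t C ⊆ (1 + t) K}`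
satisfy `A(t) - A(t) ⊇ (1 - o(t)) D`, and by the Brunn-Minkowski inequality
`|A(t)|^(1/3) ≤ |K|^(1/3) - t (|C|^(1/3) - |K|^(1/3))`, where `|C| > |K|` unless `K` is centrally
symmetric, by the case of equality. Half sums `K = (K0 + K1) / 2`: the volume is strictly
log-concave along the segment from `K0` to `K1` unless these are translates of each other. Bodies
that are round in two opposite directions are such half sums: the support function can be
perturbed by small odd functions. Centrally symmetric bodies have `δ_L ≥ 0.41 > 2/5 ≥ δ_T(Δ)`.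
-/

namespace Pool.Agent.Results.MP_3d065d_co.NoSmoothMinimiser

open MeasureTheory
open Pool.Agent.TH219.DL (Body dL dT mn)
open Pool.Agent.V8H55.MD

/-- `K` is the half sum of two bodies, which are not translates of each other, whose difference
bodies contain that of `K` -/
def HalfSum (K : Set (Fin 3 → ℝ)) : Prop :=
  ∃ K0 K1 : Set (Fin 3 → ℝ), Body K0 ∧ Body K1 ∧ DLe K K0 ∧ DLe K K1 ∧
    (∀ x ∈ K0, ∀ y ∈ K1, (1 / 2 : ℝ) • x + (1 / 2 : ℝ) • y ∈ K) ∧
    ¬ ∃ g : Fin 3 → ℝ, K1 = (fun x => x + g) '' K0

theorem near_min {K : Set (Fin 3 → ℝ)} (hK : Body K)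
    (h : (Smooth K ∧ ¬ CSym K) ∨ RoundPair K ∨ HalfSum K) {ε : ℝ} (hε : 0 < ε) :
    ∃ K' : Set (Fin 3 → ℝ), Body K' ∧ DLe K K' ∧ volume K' < volume K ∧
      (∀ x ∈ K', ∃ y ∈ K, dist x y < ε) ∧ (∀ y ∈ K, ∃ x ∈ K', dist x y < ε) := by
  have hhalf : HalfSum K → ∃ K' : Set (Fin 3 → ℝ), Body K' ∧ DLe K K' ∧ volume K' < volume K ∧
      (∀ x ∈ K', ∃ y ∈ K, dist x y < ε) ∧ (∀ y ∈ K, ∃ x ∈ K', dist x y < ε) := by
    rintro ⟨K0, K1, h0, h1, hD0, hD1, hm, hne⟩
    exact half_local hK h0 h1 hD0 hD1 hm hne hε
  rcases h with ⟨hS, hns⟩ | ⟨n, r, δ, hn, hr, hδ, hR⟩ | h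
  · exact exists_smaller hK hS hns hε
  · exact hhalf (round_half hK hn hr hδ hR)
  · exact hhalf h

/-- Smooth bodies without a centre of symmetry, bodies that are round in a pair of opposite
directions and half sums are not even local minimisers of `δ_T`, `δ_L`. Every minimiser of `δ_T`
or `δ_L` is neither smooth, nor centrally symmetric, nor round in a pair of opposite directions,
nor a half sum, and it has the least volume among the bodies whose difference body contains its
own. -/
theorem result :
    (∀ K : Set (Fin 3 → ℝ), Body K → ((Smooth K ∧ ¬ CSym K) ∨ RoundPair K ∨ HalfSum K) →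
      ∀ ε : ℝ, 0 < ε → ∃ K' : Set (Fin 3 → ℝ), Body K' ∧ (∀ x ∈ K', ∃ y ∈ K, dist x y < ε) ∧
        (∀ y ∈ K, ∃ x ∈ K', dist x y < ε) ∧ dT K' < dT K ∧ dL K' < dL K) ∧
    (∀ K : Set (Fin 3 → ℝ), Body K → (dT K = mn dT ∨ dL K = mn dL) →
      ¬ Smooth K ∧ ¬ CSym K ∧ ¬ RoundPair K ∧ ¬ HalfSum K ∧
      (∀ K' : Set (Fin 3 → ℝ), Body K' → DLe K K' → volume K ≤ volume K')) := by
  refine ⟨?_, ?_⟩
  · intro K hK h ε hε
    obtain ⟨K', h1, h2, h3, h4, h5⟩ := near_min hK h hε
    exact ⟨K', h1, h4, h5, dT_lt hK h1 h2 h3, dL_lt hK h1 h2 h3⟩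
  · intro K hK hmin
    have hvol : ∀ K' : Set (Fin 3 → ℝ), Body K' → DLe K K' → volume K ≤ volume K' := by
      intro K' hK' hD
      by_contra hlt
      push Not at hlt
      rcases hmin with hm | hm
      · have h1 : mn dT ≤ dT K' := iInf₂_le K' hK'
        exact absurd (lt_of_lt_of_le (dT_lt hK hK' hD hlt) (hm.le.trans h1)) (lt_irrefl _)
      · have h1 : mn dL ≤ dL K' := iInf₂_le K' hK'
        exact absurd (lt_of_lt_of_le (dL_lt hK hK' hD hlt) (hm.le.trans h1)) (lt_irrefl _)
    have hns : ¬ CSym K := by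
      intro hs
      have h1 := sym_low hK hs
      rcases hmin with hm | hm
      · exact absurd (lt_of_le_of_lt (h1.trans (Pool.Agent.TH219.DL.dL_le_dT K))
          (hm ▸ mn_dT_lt)) (lt_irrefl _)
      · exact absurd (lt_of_le_of_lt h1 (hm ▸ mn_dL_lt)) (lt_irrefl _)
    have hno : ¬ ((Smooth K ∧ ¬ CSym K) ∨ RoundPair K ∨ HalfSum K) := by
      intro h
      obtain ⟨K', h1, h2, h3, -, -⟩ := near_min hK h one_pos
      exact absurd (lt_of_lt_of_le h3 (hvol K' h1 h2)) (lt_irrefl _)
    push Not at hno
    obtain ⟨h1, h2, h3⟩ := hno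
    exact ⟨fun hS => hns (h1 hS), hns, h2, h3, hvol⟩

end Pool.Agent.Results.MP_3d065d_co.NoSmoothMinimiser
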