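import Pool.Agent.V8H55.CT.Main

/-!
# Extreme points of the minimisers of `δ_T` and `δ_{T*}` are contact points

`dT`, `dTs`, `mn`, `Body`, `mem`, `IsPack`, `den` are the densities `δ_T`, `δ_{T*}`, the minimum
over all convex bodies, the property of being a convex body, the member with index `(s, c)`
(`K + c` if `s = false`, `-K + c` if `s = true`), the packing property and the density of the
family with index set `S`, see `Pool.Agent.TH219.DL.Defs`; `Expo K` is the set of the exposed
points of `K`. In `Pool.Agent.V8H55.CT`:

* `LocMinOf δ K`: the bodies contained in `K` and close to `K` have at least the value `δ K`;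
* `UD σ K S`: `S` is the index set of a packing with types in `σ` (`{false}`: translates of `K`;
  `univ`: translates of `K` and of `-K`), and if `K` is contained in the ball of radius `D` around
  0, then every ball of radius `r + 2D` contains the centres of at least as many members of the
  packing as any ball of radius `r` contains centres of members of any other packing.

Proof: `δ(K) / vol K` is the limit superior of the maximal number `N(K, r)` of members of a packing
with centres in the ball of radius `r` divided by the volume of the ball. Cut off from `K` a small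
cap at an exposed point `p`. The density does not decrease, the volume does, thus an optimal
packing of the cut body with centres in a large ball has, far away from the boundary of this ball,
two members that overlap if the caps are added. Move the first of these members to `K`, make the
caps smaller and the balls larger and pass to a limit (along an ultrafilter). It is a packing
of `K`, uniformly densest since optimal packings have at least `N(K, r)` centres in any ball of
radius `r + 2D`, and the second member touches `K` at `p`.
-/

namespace Pool.Agent.Results.MP_3d065d_co.TranslativeContacts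

open Pool.Agent.TH219.DL (Body dT dTs mn mem den)
open Pool.Agent.V8H55.CP (Expo)
open Pool.Agent.V8H55.CT

/-- Let `K` be a minimiser of `δ_T` (of `δ_{T*}`), or a body such that no body inside `K` and close
to `K` has a smaller value. For every exposed point `p` there is a uniformly densest packing by
translates of `K` (and of `-K`) with `K` among its members in which `K` touches another member
at `p`, and the contact set of the two is contained in a line. Every extreme point of `K` is a
contact point of `K` with another member of a uniformly densest packing. Every convex body has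
uniformly densest packings, and their density is `δ_T(K)` (`δ_{T*}(K)`). -/
theorem result :
    (∀ K : Set (Fin 3 → ℝ), Body K → (dT K = mn dT ∨ LocMinOf dT K) →
      (∀ p ∈ Expo K, ∃ (S : Set (Bool × (Fin 3 → ℝ))) (q : Bool × (Fin 3 → ℝ)),
        UD {false} K S ∧ (false, 0) ∈ S ∧ q ∈ S ∧ q ≠ (false, 0) ∧ p ∈ mem K q ∧
          ∃ a d : Fin 3 → ℝ, ∀ x ∈ K, x ∈ mem K q → ∃ t : ℝ, x = a + t • d) ∧
      (∀ p ∈ K.extremePoints ℝ, ∃ (S : Set (Bool × (Fin 3 → ℝ))) (q : Bool × (Fin 3 → ℝ)),
        UD {false} K S ∧ (false, 0) ∈ S ∧ q ∈ S ∧ q ≠ (false, 0) ∧ p ∈ mem K q)) ∧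
    (∀ K : Set (Fin 3 → ℝ), Body K → (dTs K = mn dTs ∨ LocMinOf dTs K) →
      (∀ p ∈ Expo K, ∃ (S : Set (Bool × (Fin 3 → ℝ))) (q : Bool × (Fin 3 → ℝ)),
        UD Set.univ K S ∧ (false, 0) ∈ S ∧ q ∈ S ∧ q ≠ (false, 0) ∧ p ∈ mem K q ∧
          ∃ a d : Fin 3 → ℝ, ∀ x ∈ K, x ∈ mem K q → ∃ t : ℝ, x = a + t • d) ∧
      (∀ p ∈ K.extremePoints ℝ, ∃ (S : Set (Bool × (Fin 3 → ℝ))) (q : Bool × (Fin 3 → ℝ)),
        UD Set.univ K S ∧ (false, 0) ∈ S ∧ q ∈ S ∧ q ≠ (false, 0) ∧ p ∈ mem K q)) ∧
    (∀ K : Set (Fin 3 → ℝ), Body K → (∃ S, UD {false} K S) ∧ (∃ S, UD Set.univ K S) ∧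
      (∀ S, UD {false} K S → den K S = dT K) ∧ ∀ S, UD Set.univ K S → den K S = dTs K) := by
  refine ⟨fun K hK h => ?_, fun K hK h => ?_, fun K hK => ⟨exists_ud _ hK, exists_ud _ hK,
    fun S hS => ?_, fun S hS => ?_⟩⟩
  · have hmin : LocMinX {false} K := by
      rcases h with h | h
      · exact locMinX_false (locMinOf_of_min h)
      · exact locMinX_false h
    have hσ : false ∈ ({false} : Set Bool) := rfl
    refine ⟨fun p hp => ?_, fun p hp => (extreme_contactT hσ hK hmin hp).2⟩
    obtain ⟨hp1, v, hv⟩ := hp
    exact exposed_contactT hσ hK hmin hp1 hv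
  · have hmin : LocMinX Set.univ K := by
      rcases h with h | h
      · exact locMinX_univ (locMinOf_of_min h)
      · exact locMinX_univ h
    have hσ : false ∈ (Set.univ : Set Bool) := Set.mem_univ _
    refine ⟨fun p hp => ?_, fun p hp => (extreme_contactT hσ hK hmin hp).2⟩
    obtain ⟨hp1, v, hv⟩ := hp
    exact exposed_contactT hσ hK hmin hp1 hv
  · rw [ud_den hK hS, dX_false]
  · rw [ud_den hK hS, dX_univ]

end Pool.Agent.Results.MP_3d065d_co.TranslativeContacts
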